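import Pool.Agent.S5399Aux.Lower

set_option autoImplicit false

namespace Pool.Agent.S5399Aux

open Finset

theorem card_mult_le (p a k : ℕ) (hp : 0 < p) :
    ((range k).filter (fun s => p ∣ a + s)).card ≤ k / p + 1 := by
  rw [← Finset.card_range (k / p + 1)]
  refine Finset.card_le_card_of_injOn (fun s => s / p) ?_ ?_
  · intro s hs
    simp only [coe_filter, mem_range, Set.mem_ofPred_eq] at hs
    simp only [coe_range, Set.mem_Iio]
    have := Nat.div_le_div_right (c := p) hs.1.le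
    omega
  · intro s hs s' hs' h
    simp only [coe_filter, mem_range, Set.mem_ofPred_eq] at hs hs'
    simp only at h
    have h1 : a + s ≡ a + s' [MOD p] :=
      ((Nat.modEq_zero_iff_dvd).2 hs.2).trans ((Nat.modEq_zero_iff_dvd).2 hs'.2).symm
    have h2 : s ≡ s' [MOD p] := Nat.ModEq.add_left_cancel' a h1
    have h3 := Nat.div_add_mod s p
    have h4 := Nat.div_add_mod s' p
    have h5 : s % p = s' % p := h2
    rw [h, h5] at h3
    omega

/-- A polynomial bound for the Jacobsthal function. -/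
theorem jacobsthal : ∃ C K : ℕ, ∀ P : Finset ℕ, (∀ p ∈ P, p.Prime) → ∀ a k : ℕ,
    K * (P.card + 1) ^ C ≤ k → ∃ s ∈ range k, ∀ p ∈ P, ¬ p ∣ (a + s) := by
  obtain ⟨r, hr⟩ : ∃ r : ℕ, 1025 ≤ r := ⟨1025, le_rfl⟩
  refine ⟨2 * (2 + 6 * r), 40 * 64 ^ (2 + 6 * r), ?_⟩
  intro P hP a k hk
  by_contra hcon
  push Not at hcon
  set w := P.card with hw
  set y := 64 * (w + 1) ^ 2 with hy
  have hy64 : 64 ≤ y := by
    rw [hy]
    have : 1 ≤ (w + 1) ^ 2 := Nat.one_le_pow _ _ (by omega)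
    omega
  have hkey : 40 * y ^ 2 * (y ^ r) ^ 6 ≤ k := by
    refine le_trans (le_of_eq ?_) hk
    rw [← pow_mul, mul_assoc, ← pow_add, hy, mul_pow, ← pow_mul, mul_assoc]
    ring_nf
  have hrough := rough_lower y r a k (by omega) hr
  have hG1 := one_le_GG y (y ^ r) (Nat.one_le_pow _ _ (by omega))
  have hG2 := GG_le y (y ^ r) (by omega)
  set G := GG y (y ^ r) with hG
  set z := y ^ r with hz
  have hz1 : (1 : ℝ) ≤ z := by
    have : 1 ≤ z := Nat.one_le_pow _ _ (by omega)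
    exact_mod_cast this
  clear_value G z y
  have hwr : (0 : ℝ) ≤ w := Nat.cast_nonneg _
  have hyr : (y : ℝ) = 64 * ((w : ℝ) + 1) ^ 2 := by rw [hy]; push_cast; ring
  have hy0 : (0 : ℝ) < y := by
    have : 0 < y := by omega
    exact_mod_cast this
  have hsq : Real.sqrt y = 8 * ((w : ℝ) + 1) := by
    rw [hyr, show (64 : ℝ) * ((w : ℝ) + 1) ^ 2 = (8 * ((w : ℝ) + 1)) ^ 2 by ring]
    exact Real.sqrt_sq (by positivity)
  rw [hsq] at hG2
  -- upper bound for the number of rough elements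
  have hRR : ((RR y a k).card : ℝ) ≤ w * ((k : ℝ) / y + 1) := by
    have hsub : RR y a k ⊆ (P.filter (fun p => y < p)).biUnion
        (fun p => (range k).filter (fun s => p ∣ a + s)) := by
      intro s hs
      rw [RR, mem_filter] at hs
      obtain ⟨p, hp, hpd⟩ := hcon s hs.1
      rw [mem_biUnion]
      refine ⟨p, mem_filter.2 ⟨hp, ?_⟩, mem_filter.2 ⟨hs.1, hpd⟩⟩
      by_contra hle
      push Not at hle
      exact hs.2 p (mem_PP.2 ⟨hle, hP p hp⟩) hpd
    have h1 := (Finset.card_le_card hsub).trans Finset.card_biUnion_le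
    have h2 : ((RR y a k).card : ℝ) ≤ ∑ p ∈ P.filter (fun p => y < p),
        (((range k).filter (fun s => p ∣ a + s)).card : ℝ) := by exact_mod_cast h1
    refine h2.trans ?_
    calc ∑ p ∈ P.filter (fun p => y < p), (((range k).filter (fun s => p ∣ a + s)).card : ℝ)
        ≤ ∑ p ∈ P.filter (fun p => y < p), ((k : ℝ) / y + 1) := by
          refine Finset.sum_le_sum (fun p hp => ?_)
          have hpy := (mem_filter.1 hp).2
          have hp0 : 0 < p := by omega
          have h3 := card_mult_le p a k hp0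
          have h4 : (((range k).filter (fun s => p ∣ a + s)).card : ℝ) ≤ ((k / p : ℕ) : ℝ) + 1 := by
            exact_mod_cast h3
          have h5 : ((k / p : ℕ) : ℝ) ≤ (k : ℝ) / p := Nat.cast_div_le
          have h6 : (k : ℝ) / p ≤ (k : ℝ) / y :=
            div_le_div_of_nonneg_left (Nat.cast_nonneg _) hy0 (by exact_mod_cast hpy.le)
          linarith
      _ = ((P.filter (fun p => y < p)).card : ℝ) * ((k : ℝ) / y + 1) := by
          rw [Finset.sum_const, nsmul_eq_mul]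
      _ ≤ w * ((k : ℝ) / y + 1) := by
          apply mul_le_mul_of_nonneg_right _ (by positivity)
          exact_mod_cast Finset.card_filter_le _ _
  have hG0 : 0 < G := by linarith
  have hk0 : (0 : ℝ) ≤ k := Nat.cast_nonneg _
  -- w G / y ≤ 1/4
  have h1 : (w : ℝ) * G ≤ y / 4 := by
    rw [hyr]
    nlinarith
  have h2 : ((RR y a k).card : ℝ) * G ^ 2 ≤ (k : ℝ) * G / 4 + G * y / 4 := by
    calc ((RR y a k).card : ℝ) * G ^ 2 ≤ (w * ((k : ℝ) / y + 1)) * G ^ 2 :=
          mul_le_mul_of_nonneg_right hRR (by positivity)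
      _ = (w * G) * (((k : ℝ) / y + 1) * G) := by ring
      _ ≤ (y / 4) * (((k : ℝ) / y + 1) * G) :=
          mul_le_mul_of_nonneg_right h1 (by positivity)
      _ = (k : ℝ) * G / 4 + G * y / 4 := by
          field_simp
  have h3 : (k : ℝ) * G / 4 ≤ 4 * (y : ℝ) ^ 2 * (z : ℝ) ^ 6 + G * y / 4 := by linarith
  have h4 : (k : ℝ) * G ≤ (16 * (y : ℝ) ^ 2 * (z : ℝ) ^ 6 + y) * G := by
    have h5 : (0 : ℝ) ≤ 16 * (y : ℝ) ^ 2 * (z : ℝ) ^ 6 := by positivity
    nlinarith
  have h5 : (k : ℝ) ≤ 16 * (y : ℝ) ^ 2 * (z : ℝ) ^ 6 + y := le_of_mul_le_mul_right h4 hG0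
  have h6 : (40 : ℝ) * (y : ℝ) ^ 2 * (z : ℝ) ^ 6 ≤ k := by exact_mod_cast hkey
  have hy1 : (64 : ℝ) ≤ y := by exact_mod_cast hy64
  have h7 : (y : ℝ) ≤ (y : ℝ) ^ 2 * (z : ℝ) ^ 6 := by
    have h8 : (1 : ℝ) ≤ (z : ℝ) ^ 6 := one_le_pow₀ hz1
    have h9 : (y : ℝ) ≤ (y : ℝ) ^ 2 := by nlinarith
    have h10 : (0 : ℝ) ≤ (y : ℝ) ^ 2 := by positivity
    nlinarith
  have h8 : (0 : ℝ) < (y : ℝ) ^ 2 * (z : ℝ) ^ 6 := by positivity
  linarith

theorem card_primeFactors_le (a : ℕ) (ha : a ≠ 0) :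
    (a.primeFactors.card : ℝ) * Real.log 2 ≤ Real.log a := by
  have h1 : 2 ^ a.primeFactors.card ≤ a := by
    calc 2 ^ a.primeFactors.card = ∏ p ∈ a.primeFactors, 2 := by rw [Finset.prod_const]
      _ ≤ ∏ p ∈ a.primeFactors, p :=
          Finset.prod_le_prod' (fun p hp => (Nat.prime_of_mem_primeFactors hp).two_le)
      _ ≤ a := Nat.le_of_dvd (Nat.pos_of_ne_zero ha) (Nat.prod_primeFactors_dvd a)
  have h2 : ((2 : ℝ)) ^ a.primeFactors.card ≤ a := by exact_mod_cast h1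
  have h3 := Real.log_le_log (by positivity) h2
  rwa [Real.log_pow] at h3

end Pool.Agent.S5399Aux
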