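import Pool.Agent.S4042Aux.Sieve

set_option autoImplicit false

namespace Pool.Agent.S5399Aux

open Finset Pool.Agent.S4042Aux

theorem sum_shift (N a : ℕ) (F : ℕ → ℝ) (hF : Function.Periodic F N) :
    ∑ s ∈ range N, F (a + s) = ∑ s ∈ range N, F s := by
  induction a with
  | zero => simp
  | succ a ih =>
    rw [← ih]
    have h1 := Finset.sum_range_succ (fun s => F (a + s)) N
    have h2 := Finset.sum_range_succ' (fun s => F (a + s)) N
    have h3 : F (a + N) = F (a + 0) := by rw [add_zero]; exact hF a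
    have h4 : ∑ s ∈ range N, F (a + 1 + s) = ∑ s ∈ range N, F (a + (s + 1)) :=
      Finset.sum_congr rfl (fun s _ => by rw [add_assoc, add_comm 1 s])
    rw [h4]
    linarith

theorem sum_periodic_abs (N k a : ℕ) (hN : 0 < N) (F : ℕ → ℝ) (hF : Function.Periodic F N)
    (M : ℝ) (hM : ∀ s, |F s| ≤ M) :
    |∑ s ∈ range k, F (a + s) - (k : ℝ) / N * (∑ s ∈ range N, F s)| ≤ 2 * N * M := by
  have hper : Function.Periodic (fun s => F (a + s)) N := by
    intro s
    show F (a + (s + N)) = F (a + s)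
    rw [← add_assoc]; exact hF _
  have hper' : Function.Periodic (fun s => - F (a + s)) N := by
    intro s
    show - F (a + (s + N)) = - F (a + s)
    rw [← add_assoc, hF]
  have h1 := sum_range_periodic_le N k hN (fun s => F (a + s)) hper M (fun s => hM _)
  have h2 := sum_range_periodic_le N k hN (fun s => - F (a + s)) hper' M
    (fun s => by rw [abs_neg]; exact hM _)
  rw [Finset.sum_neg_distrib, Finset.sum_neg_distrib] at h2
  rw [sum_shift N a F hF] at h1 h2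
  rw [abs_le]
  constructor <;> linarith

theorem corr (T : Finset ℕ) (hT : ∀ p ∈ T, p.Prime) (v : ℕ → ℕ → ℝ)
    (hv : ∀ p ∈ T, Function.Periodic (v p) p) (M : ℝ) (hM : ∀ s, |∏ p ∈ T, v p s| ≤ M)
    (k a : ℕ) :
    |∑ s ∈ range k, ∏ p ∈ T, v p (a + s) - k * ∏ p ∈ T, ((∑ b ∈ range p, v p b) / (p : ℝ))| ≤
      2 * (∏ p ∈ T, (p : ℝ)) * M := by
  have hNpos : 0 < ∏ p ∈ T, p := Finset.prod_pos (fun p hp => (hT p hp).pos)
  have h := sum_periodic_abs (∏ p ∈ T, p) k a hNpos (fun s => ∏ p ∈ T, v p s)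
    (periodic_prod T v hv) M hM
  rw [crtN T hT v hv] at h
  have h1 : (k : ℝ) * ∏ p ∈ T, ((∑ b ∈ range p, v p b) / (p : ℝ)) =
      (k : ℝ) / ((∏ p ∈ T, p : ℕ) : ℝ) * ∏ p ∈ T, ∑ b ∈ range p, v p b := by
    rw [Finset.prod_div_distrib]
    push_cast
    ring
  rw [h1]
  push_cast at h ⊢
  exact h

/-- normalised function -/
noncomputable def uu (p s : ℕ) : ℝ := if p ∣ s then -1 else 1 / ((p : ℝ) - 1)

theorem uu_periodic (p : ℕ) : Function.Periodic (uu p) p := by
  intro s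
  unfold uu
  simp only [Nat.dvd_add_self_right]

theorem sum_ite_dvd (p : ℕ) (hp : p.Prime) (x y : ℝ) :
    ∑ b ∈ range p, (if p ∣ b then x else y) = x + ((p : ℝ) - 1) * y := by
  have h1 : ∀ b ∈ range p, (if p ∣ b then x else y) = (if b = 0 then (x - y) else 0) + y := by
    intro b hb
    by_cases hb0 : b = 0
    · simp [hb0]
    · rw [if_neg hb0, if_neg, zero_add]
      intro hd
      exact hb0 (Nat.eq_zero_of_dvd_of_lt hd (mem_range.1 hb))
  rw [Finset.sum_congr rfl h1, Finset.sum_add_distrib, Finset.sum_ite_eq',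
    if_pos (mem_range.2 hp.pos), Finset.sum_const, card_range, nsmul_eq_mul]
  ring

theorem uu_mean (p : ℕ) (hp : p.Prime) : ∑ b ∈ range p, uu p b = 0 := by
  unfold uu
  rw [sum_ite_dvd p hp]
  have h2 : (2 : ℝ) ≤ p := by exact_mod_cast hp.two_le
  have h3 : (p : ℝ) - 1 ≠ 0 := by linarith
  field_simp
  ring

theorem uu_var (p : ℕ) (hp : p.Prime) :
    (∑ b ∈ range p, uu p b * uu p b) / (p : ℝ) = 1 / ((p : ℝ) - 1) := by
  have h1 : ∀ b ∈ range p, uu p b * uu p b =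
      if p ∣ b then (1 : ℝ) else (1 / ((p : ℝ) - 1)) * (1 / ((p : ℝ) - 1)) := by
    intro b _
    unfold uu
    split_ifs <;> norm_num
  rw [Finset.sum_congr rfl h1, sum_ite_dvd p hp]
  have h2 : (2 : ℝ) ≤ p := by exact_mod_cast hp.two_le
  have h3 : (p : ℝ) - 1 ≠ 0 := by linarith
  have h4 : (p : ℝ) ≠ 0 := by linarith
  field_simp
  ring

theorem uu_abs (p : ℕ) (hp : p.Prime) (s : ℕ) : |uu p s| ≤ p := by
  have h2 : (2 : ℝ) ≤ p := by exact_mod_cast hp.two_le
  have h3 : 1 / ((p : ℝ) - 1) ≤ 1 := by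
    rw [div_le_one (by linarith)]; linarith
  have h4 : 0 ≤ 1 / ((p : ℝ) - 1) := div_nonneg zero_le_one (by linarith)
  unfold uu
  split_ifs
  · rw [abs_neg, abs_one]; linarith
  · rw [abs_of_nonneg h4]; linarith

noncomputable def UU (t : Finset ℕ) (s : ℕ) : ℝ := ∏ p ∈ t, uu p s
noncomputable def hh (t : Finset ℕ) : ℝ := ∏ p ∈ t, 1 / ((p : ℝ) - 1)
noncomputable def WW (P0 : Finset ℕ) (s : ℕ) : ℝ := ∏ p ∈ P0, if p ∣ s then (1 : ℝ) else 0

theorem prod_ite_subset (T t : Finset ℕ) (ht : t ⊆ T) (f : ℕ → ℝ) :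
    ∏ p ∈ T, (if p ∈ t then f p else 1) = ∏ p ∈ t, f p := by
  rw [← Finset.prod_subset ht]
  · exact Finset.prod_congr rfl (fun p hp => by rw [if_pos hp])
  · intro p _ hp
    rw [if_neg hp]

theorem UU_abs (t : Finset ℕ) (ht : ∀ p ∈ t, p.Prime) (z : ℕ) (hz : ∏ p ∈ t, p ≤ z) (s : ℕ) :
    |UU t s| ≤ z := by
  unfold UU
  rw [Finset.abs_prod]
  calc ∏ p ∈ t, |uu p s| ≤ ∏ p ∈ t, (p : ℝ) :=
        Finset.prod_le_prod (fun p _ => abs_nonneg _) (fun p hp => uu_abs p (ht p hp) s)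
    _ = ((∏ p ∈ t, p : ℕ) : ℝ) := by push_cast; rfl
    _ ≤ z := by exact_mod_cast hz

theorem pair_corr (P0 t t' : Finset ℕ) (hP0 : ∀ p ∈ P0, p.Prime) (ht : ∀ p ∈ t, p.Prime)
    (ht' : ∀ p ∈ t', p.Prime) (hd : ∀ p ∈ P0, p ∉ t ∧ p ∉ t') (z : ℕ)
    (hz : ∏ p ∈ t, p ≤ z) (hz' : ∏ p ∈ t', p ≤ z) (k a : ℕ) :
    |∑ s ∈ range k, WW P0 (a + s) * (UU t (a + s) * UU t' (a + s)) -
      (if t = t' then (k : ℝ) / (∏ p ∈ P0, (p : ℝ)) * hh t else 0)| ≤
      2 * (∏ p ∈ P0, (p : ℝ)) * z ^ 4 := by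
  classical
  let T : Finset ℕ := P0 ∪ (t ∪ t')
  have hP0T : P0 ⊆ T := subset_union_left
  have htT : t ⊆ T := (subset_union_left (s₁ := t) (s₂ := t')).trans subset_union_right
  have ht'T : t' ⊆ T := (subset_union_right (s₁ := t) (s₂ := t')).trans subset_union_right
  have hTp : ∀ p ∈ T, p.Prime := by
    intro p hp
    rcases Finset.mem_union.1 hp with h1 | h1
    · exact hP0 p h1
    · rcases Finset.mem_union.1 h1 with h2 | h2
      · exact ht p h2
      · exact ht' p h2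
  let v : ℕ → ℕ → ℝ := fun p s =>
    (if p ∈ P0 then (if p ∣ s then (1 : ℝ) else 0) else 1) *
      ((if p ∈ t then uu p s else 1) * (if p ∈ t' then uu p s else 1))
  have hv : ∀ p ∈ T, Function.Periodic (v p) p := by
    intro p _ s
    show (if p ∈ P0 then (if p ∣ s + p then (1 : ℝ) else 0) else 1) *
      ((if p ∈ t then uu p (s + p) else 1) * (if p ∈ t' then uu p (s + p) else 1)) = _
    rw [uu_periodic p s]
    simp only [Nat.dvd_add_self_right]
    rfl
  have hF : ∀ s, WW P0 s * (UU t s * UU t' s) = ∏ p ∈ T, v p s := by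
    intro s
    show _ = ∏ p ∈ T, ((if p ∈ P0 then (if p ∣ s then (1 : ℝ) else 0) else 1) *
      ((if p ∈ t then uu p s else 1) * (if p ∈ t' then uu p s else 1)))
    rw [Finset.prod_mul_distrib, Finset.prod_mul_distrib,
      prod_ite_subset T P0 hP0T (fun p => if p ∣ s then (1 : ℝ) else 0),
      prod_ite_subset T t htT, prod_ite_subset T t' ht'T]
    rfl
  have hWb : ∀ s, |WW P0 s| ≤ 1 := by
    intro s
    unfold WW
    rw [Finset.abs_prod]
    apply Finset.prod_le_one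
    · intro p _; exact abs_nonneg _
    · intro p _; split_ifs <;> simp
  have hM : ∀ s, |∏ p ∈ T, v p s| ≤ (z : ℝ) ^ 2 := by
    intro s
    rw [← hF, abs_mul, abs_mul]
    have h1 := UU_abs t ht z hz s
    have h2 := UU_abs t' ht' z hz' s
    have h3 := hWb s
    have h5 : |UU t s| * |UU t' s| ≤ (z : ℝ) * z :=
      mul_le_mul h1 h2 (abs_nonneg _) (Nat.cast_nonneg _)
    have h6 : 0 ≤ |UU t s| * |UU t' s| := by positivity
    have h7 := abs_nonneg (WW P0 s)
    nlinarith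
  have hmain := corr T hTp v hv ((z : ℝ) ^ 2) hM k a
  have hNle : (∏ p ∈ T, (p : ℝ)) ≤ (∏ p ∈ P0, (p : ℝ)) * z ^ 2 := by
    have h1 : ∀ A B : Finset ℕ, (∀ p ∈ A, p.Prime) → (∀ p ∈ B, p.Prime) →
        (∏ p ∈ A ∪ B, (p : ℝ)) ≤ (∏ p ∈ A, (p : ℝ)) * ∏ p ∈ B, (p : ℝ) := by
      intro A B hA hB
      rw [← Finset.prod_union_inter]
      apply le_mul_of_one_le_right (Finset.prod_nonneg (fun p _ => Nat.cast_nonneg _))
      have : (1 : ℕ) ≤ ∏ p ∈ A ∩ B, p :=
        Finset.prod_pos (fun p hp => (hA p (Finset.mem_inter.1 hp).1).pos)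
      have h2 : ((1 : ℕ) : ℝ) ≤ ((∏ p ∈ A ∩ B, p : ℕ) : ℝ) := Nat.cast_le.2 this
      rw [Nat.cast_prod, Nat.cast_one] at h2
      exact h2
    have h2 := h1 P0 (t ∪ t') hP0 (fun p hp => hTp p (mem_union_right _ hp))
    have h3 := h1 t t' ht ht'
    have h4 : (∏ p ∈ t, (p : ℝ)) ≤ z := by
      rw [← Nat.cast_prod]; exact Nat.cast_le.2 hz
    have h5 : (∏ p ∈ t', (p : ℝ)) ≤ z := by
      rw [← Nat.cast_prod]; exact Nat.cast_le.2 hz'
    have h6 : 0 ≤ ∏ p ∈ P0, (p : ℝ) := Finset.prod_nonneg (fun p _ => Nat.cast_nonneg _)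
    have h7 : 0 ≤ ∏ p ∈ t, (p : ℝ) := Finset.prod_nonneg (fun p _ => Nat.cast_nonneg _)
    have h8 : 0 ≤ ∏ p ∈ t', (p : ℝ) := Finset.prod_nonneg (fun p _ => Nat.cast_nonneg _)
    calc (∏ p ∈ T, (p : ℝ)) ≤ (∏ p ∈ P0, (p : ℝ)) * ∏ p ∈ t ∪ t', (p : ℝ) := h2
      _ ≤ (∏ p ∈ P0, (p : ℝ)) * ((∏ p ∈ t, (p : ℝ)) * ∏ p ∈ t', (p : ℝ)) :=
          mul_le_mul_of_nonneg_left h3 h6
      _ ≤ (∏ p ∈ P0, (p : ℝ)) * z ^ 2 := by
          apply mul_le_mul_of_nonneg_left _ h6
          rw [sq]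
          exact mul_le_mul h4 h5 h8 (Nat.cast_nonneg _)
  have hmn : (k : ℝ) * ∏ p ∈ T, ((∑ b ∈ range p, v p b) / (p : ℝ)) =
      (if t = t' then (k : ℝ) / (∏ p ∈ P0, (p : ℝ)) * hh t else 0) := by
    split_ifs with htt
    · subst htt
      have h1 : ∏ p ∈ T, ((∑ b ∈ range p, v p b) / (p : ℝ)) =
          ∏ p ∈ T, ((if p ∈ P0 then 1 / (p : ℝ) else 1) *
            (if p ∈ t then 1 / ((p : ℝ) - 1) else 1)) := by
        refine Finset.prod_congr rfl (fun p hp => ?_)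
        have hpp := hTp p hp
        by_cases hpP : p ∈ P0
        · have hpt := (hd p hpP).1
          have : ∀ b ∈ range p, v p b = if p ∣ b then (1 : ℝ) else 0 := by
            intro b _
            show (if p ∈ P0 then (if p ∣ b then (1 : ℝ) else 0) else 1) *
              ((if p ∈ t then uu p b else 1) * (if p ∈ t then uu p b else 1)) = _
            rw [if_pos hpP, if_neg hpt, mul_one, mul_one]
          rw [Finset.sum_congr rfl this, sum_ite_dvd p hpp, if_pos hpP, if_neg hpt]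
          ring
        · have hpt : p ∈ t := by
            rcases Finset.mem_union.1 hp with h | h
            · exact absurd h hpP
            · simpa using h
          have : ∀ b ∈ range p, v p b = uu p b * uu p b := by
            intro b _
            show (if p ∈ P0 then (if p ∣ b then (1 : ℝ) else 0) else 1) *
              ((if p ∈ t then uu p b else 1) * (if p ∈ t then uu p b else 1)) = _
            rw [if_neg hpP, if_pos hpt, one_mul]
          rw [Finset.sum_congr rfl this, uu_var p hpp, if_neg hpP, if_pos hpt, one_mul]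
      rw [h1, Finset.prod_mul_distrib, prod_ite_subset T P0 hP0T, prod_ite_subset T t htT,
        Finset.prod_div_distrib, Finset.prod_const_one]
      unfold hh
      ring
    · have hex : ∃ p, (p ∈ t ∧ p ∉ t') ∨ (p ∉ t ∧ p ∈ t') := by
        by_contra hcon
        push Not at hcon
        apply htt
        ext p
        constructor
        · exact fun hp => (hcon p).1 hp
        · intro hp
          by_contra hpt
          exact (hcon p).2 hpt hp
      obtain ⟨p, hp⟩ := hex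
      have hpT : p ∈ T := by
        rcases hp with hp | hp
        · exact htT hp.1
        · exact ht'T hp.2
      have hpP : p ∉ P0 := by
        intro h
        rcases hp with hp | hp
        · exact (hd p h).1 hp.1
        · exact (hd p h).2 hp.2
      have : ∏ p ∈ T, ((∑ b ∈ range p, v p b) / (p : ℝ)) = 0 := by
        apply Finset.prod_eq_zero hpT
        have : ∀ b ∈ range p, v p b = uu p b := by
          intro b _
          show (if p ∈ P0 then (if p ∣ b then (1 : ℝ) else 0) else 1) *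
            ((if p ∈ t then uu p b else 1) * (if p ∈ t' then uu p b else 1)) = _
          rcases hp with hp | hp
          · rw [if_neg hpP, if_pos hp.1, if_neg hp.2, one_mul, mul_one]
          · rw [if_neg hpP, if_neg hp.1, if_pos hp.2, one_mul, one_mul]
        rw [Finset.sum_congr rfl this, uu_mean p (hTp p hpT), zero_div]
      rw [this, mul_zero]
  rw [hmn] at hmain
  have h9 : ∑ s ∈ range k, WW P0 (a + s) * (UU t (a + s) * UU t' (a + s)) =
      ∑ s ∈ range k, ∏ p ∈ T, v p (a + s) := Finset.sum_congr rfl (fun s _ => hF (a + s))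
  rw [h9]
  refine hmain.trans ?_
  have : (0 : ℝ) ≤ (z : ℝ) ^ 2 := by positivity
  nlinarith

theorem quad (P0 : Finset ℕ) (hP0 : ∀ p ∈ P0, p.Prime) (D' : Finset (Finset ℕ)) (z : ℕ)
    (hD : ∀ t ∈ D', (∀ p ∈ t, p.Prime) ∧ (∀ p ∈ P0, p ∉ t) ∧ ∏ p ∈ t, p ≤ z) (k a : ℕ) :
    |∑ s ∈ range k, WW P0 (a + s) * (∑ t ∈ D', UU t (a + s)) ^ 2 -
      (k : ℝ) / (∏ p ∈ P0, (p : ℝ)) * ∑ t ∈ D', hh t| ≤
      (D'.card : ℝ) ^ 2 * (2 * (∏ p ∈ P0, (p : ℝ)) * z ^ 4) := by
  classical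
  have h1 : ∑ s ∈ range k, WW P0 (a + s) * (∑ t ∈ D', UU t (a + s)) ^ 2 =
      ∑ t ∈ D', ∑ t' ∈ D', ∑ s ∈ range k, WW P0 (a + s) * (UU t (a + s) * UU t' (a + s)) := by
    have h1 : ∀ s, WW P0 s * (∑ t ∈ D', UU t s) ^ 2 =
        ∑ t ∈ D', ∑ t' ∈ D', WW P0 s * (UU t s * UU t' s) := by
      intro s
      rw [sq, Finset.sum_mul_sum, Finset.mul_sum]
      exact Finset.sum_congr rfl (fun t _ => Finset.mul_sum _ _ _)
    simp only [h1]
    rw [Finset.sum_comm]
    refine Finset.sum_congr rfl (fun t _ => ?_)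
    rw [Finset.sum_comm]
  have h2 : (k : ℝ) / (∏ p ∈ P0, (p : ℝ)) * ∑ t ∈ D', hh t =
      ∑ t ∈ D', ∑ t' ∈ D', (if t = t' then (k : ℝ) / (∏ p ∈ P0, (p : ℝ)) * hh t else 0) := by
    rw [Finset.mul_sum]
    refine Finset.sum_congr rfl (fun t ht => ?_)
    rw [Finset.sum_ite_eq, if_pos ht]
  rw [h1, h2, ← Finset.sum_sub_distrib]
  calc |∑ t ∈ D', (∑ t' ∈ D', ∑ s ∈ range k, WW P0 (a + s) * (UU t (a + s) * UU t' (a + s)) -
        ∑ t' ∈ D', (if t = t' then (k : ℝ) / (∏ p ∈ P0, (p : ℝ)) * hh t else 0))|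
      ≤ ∑ t ∈ D', ∑ t' ∈ D', (2 * (∏ p ∈ P0, (p : ℝ)) * z ^ 4) := by
        refine (Finset.abs_sum_le_sum_abs _ _).trans (Finset.sum_le_sum (fun t ht => ?_))
        rw [← Finset.sum_sub_distrib]
        refine (Finset.abs_sum_le_sum_abs _ _).trans (Finset.sum_le_sum (fun t' ht' => ?_))
        exact pair_corr P0 t t' hP0 (hD t ht).1 (hD t' ht').1
          (fun p hp => ⟨(hD t ht).2.1 p hp, (hD t' ht').2.1 p hp⟩) z (hD t ht).2.2
          (hD t' ht').2.2 k a
    _ = _ := by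
        simp only [Finset.sum_const, nsmul_eq_mul]
        ring

end Pool.Agent.S5399Aux
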