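import Pool.Agent.S5399Aux.Rough

set_option autoImplicit false

namespace Pool.Agent.S5399Aux

open Finset

theorem GG_nonneg (y z : ℕ) : 0 ≤ GG y z :=
  Finset.sum_nonneg (fun _ ht => hh_nonneg (mem_DD.1 ht).1)

theorem HE_le (y z p : ℕ) (hp : p ∈ PP y) (hyz : y ≤ z) :
    HE y z p * Real.log ((z : ℝ) / y) ≤ GG y z * (16 * Real.log p) := by
  classical
  have hpp := (mem_PP.1 hp).2
  have hpy := (mem_PP.1 hp).1
  have hy0 : 0 < y := lt_of_lt_of_le hpp.pos hpy
  have hz0 : 0 < z := lt_of_lt_of_le hy0 hyz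
  have hyr : (0 : ℝ) < y := by exact_mod_cast hy0
  have hzr : (0 : ℝ) < z := by exact_mod_cast hz0
  let φ : (Σ _ : Finset ℕ, ℕ) → (Σ _ : Finset ℕ, ℕ) := fun x => ⟨x.1.erase x.2, x.2⟩
  let A := (EE y z p).sigma (fun t => t)
  let B := (DD y z).sigma (fun t' => (PP (z / ∏ q ∈ t', q)).filter
    (fun q => z / (∏ q ∈ t', q) < p * q))
  have hinj : Set.InjOn φ (A : Set (Σ _ : Finset ℕ, ℕ)) := by
    rintro ⟨t, q⟩ h ⟨t', q'⟩ h' heq
    simp only [A, coe_sigma, Set.mem_sigma_iff, Finset.mem_coe] at h h'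
    simp only [φ, Sigma.mk.injEq, heq_eq_eq] at heq
    obtain ⟨h1, h2⟩ := heq
    subst h2
    have h3 : t = t' := by
      rw [← insert_erase h.2, h1, insert_erase h'.2]
    rw [h3]
  have hsub : A.image φ ⊆ B := by
    intro x hx
    obtain ⟨⟨t, q⟩, h, rfl⟩ := mem_image.1 hx
    simp only [A, mem_sigma] at h
    obtain ⟨ht, hq⟩ := h
    rw [mem_EE, mem_DD] at ht
    obtain ⟨⟨h1, h2⟩, h3, h4⟩ := ht
    have hqp := (mem_PP.1 (h1 hq)).2
    have h5 : q * ∏ r ∈ t.erase q, r = ∏ r ∈ t, r := Finset.mul_prod_erase t (fun r => r) hq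
    have h6 : 0 < ∏ r ∈ t.erase q, r := Finset.prod_pos (fun r hr =>
      (mem_PP.1 (h1 (mem_of_mem_erase hr))).2.pos)
    simp only [B, φ, mem_sigma, mem_filter, mem_DD, mem_PP]
    refine ⟨⟨(erase_subset _ _).trans h1, ?_⟩, ⟨?_, hqp⟩, ?_⟩
    · have : ∏ r ∈ t.erase q, r ≤ q * ∏ r ∈ t.erase q, r := Nat.le_mul_of_pos_left _ hqp.pos
      omega
    · rw [Nat.le_div_iff_mul_le h6, h5]
      exact h2
    · rw [Nat.div_lt_iff_lt_mul h6, mul_assoc, h5]
      exact h4
  have hinner : ∀ t' ∈ DD y z, ∑ q ∈ (PP (z / ∏ q ∈ t', q)).filter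
      (fun q => z / (∏ q ∈ t', q) < p * q), Real.log q / ((q : ℝ) - 1) ≤ 16 * Real.log p := by
    intro t' _
    exact LS_le (z / ∏ q ∈ t', q) p hpp.two_le
  calc HE y z p * Real.log ((z : ℝ) / y)
      = ∑ t ∈ EE y z p, hh t * Real.log ((z : ℝ) / y) := by rw [HE, Finset.sum_mul]
    _ ≤ ∑ t ∈ EE y z p, hh t * ∑ q ∈ t, Real.log q := by
        refine Finset.sum_le_sum (fun t ht => ?_)
        rw [mem_EE, mem_DD] at ht
        obtain ⟨⟨h1, h2⟩, h3, h4⟩ := ht
        apply mul_le_mul_of_nonneg_left _ (hh_nonneg h1)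
        rw [← Real.log_prod (fun q hq => by
          exact_mod_cast (mem_PP.1 (h1 hq)).2.ne_zero)]
        apply Real.log_le_log (by positivity)
        rw [div_le_iff₀ hyr, ← Nat.cast_prod]
        have h5 : z ≤ (∏ q ∈ t, q) * y := by
          calc z ≤ p * ∏ q ∈ t, q := h4.le
            _ ≤ y * ∏ q ∈ t, q := Nat.mul_le_mul_right _ hpy
            _ = _ := mul_comm _ _
        exact_mod_cast h5
    _ = ∑ x ∈ A, hh (φ x).1 * (Real.log (φ x).2 / (((φ x).2 : ℝ) - 1)) := by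
        rw [Finset.sum_sigma]
        refine Finset.sum_congr rfl (fun t _ => ?_)
        rw [Finset.mul_sum]
        refine Finset.sum_congr rfl (fun q hq => ?_)
        simp only [φ]
        have : hh t = 1 / ((q : ℝ) - 1) * hh (t.erase q) := by
          unfold hh
          rw [Finset.mul_prod_erase t (fun q : ℕ => 1 / ((q : ℝ) - 1)) hq]
        rw [this]
        ring
    _ = ∑ x ∈ A.image φ, hh x.1 * (Real.log x.2 / ((x.2 : ℝ) - 1)) := by
        rw [Finset.sum_image hinj]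
    _ ≤ ∑ x ∈ B, hh x.1 * (Real.log x.2 / ((x.2 : ℝ) - 1)) := by
        apply Finset.sum_le_sum_of_subset_of_nonneg hsub
        intro x hx _
        simp only [B, mem_sigma, mem_filter, mem_DD] at hx
        exact mul_nonneg (hh_nonneg hx.1.1) (term_nonneg (mem_PP.1 hx.2.1).2)
    _ = ∑ t' ∈ DD y z, hh t' * ∑ q ∈ (PP (z / ∏ q ∈ t', q)).filter
          (fun q => z / (∏ q ∈ t', q) < p * q), Real.log q / ((q : ℝ) - 1) := by
        rw [Finset.sum_sigma]
        refine Finset.sum_congr rfl (fun t _ => ?_)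
        rw [Finset.mul_sum]
    _ ≤ ∑ t' ∈ DD y z, hh t' * (16 * Real.log p) := by
        refine Finset.sum_le_sum (fun t ht => ?_)
        exact mul_le_mul_of_nonneg_left (hinner t ht) (hh_nonneg (mem_DD.1 ht).1)
    _ = GG y z * (16 * Real.log p) := by rw [GG, Finset.sum_mul]

theorem sum_log_div (y : ℕ) (hy : 2 ≤ y) :
    ∑ p ∈ PP y, Real.log p / (p : ℝ) ≤ 32 * Real.log y := by
  have hy' : (2 : ℝ) ≤ y := by exact_mod_cast hy
  calc ∑ p ∈ PP y, Real.log p / (p : ℝ) ≤ ∑ p ∈ PP y, Real.log p / ((p : ℝ) - 1) := by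
        refine Finset.sum_le_sum (fun p hp => ?_)
        have h2 : (2 : ℝ) ≤ p := by exact_mod_cast (mem_PP.1 hp).2.two_le
        exact div_le_div_of_nonneg_left (Real.log_nonneg (by linarith)) (by linarith) (by linarith)
    _ = LS y (y + 1) := by
        unfold LS
        apply Finset.sum_congr _ (fun _ _ => rfl)
        ext q
        rw [mem_filter]
        constructor
        · intro hq
          refine ⟨hq, ?_⟩
          have := (mem_PP.1 hq).2.pos
          nlinarith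
        · exact fun h => h.1
    _ ≤ 16 * Real.log ((y + 1 : ℕ) : ℝ) := LS_le y (y + 1) (by omega)
    _ ≤ 32 * Real.log y := by
        have h1 : Real.log ((y + 1 : ℕ) : ℝ) ≤ Real.log ((y : ℝ) ^ 2) := by
          apply Real.log_le_log (by positivity)
          push_cast
          nlinarith
        rw [Real.log_pow] at h1
        push_cast at h1 ⊢
        linarith

theorem sum_HE_le (y r : ℕ) (hy : 2 ≤ y) (hr : 1025 ≤ r) :
    ∑ p ∈ PP y, HE y (y ^ r) p / (p : ℝ) ≤ GG y (y ^ r) / 2 := by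
  have hy' : (2 : ℝ) ≤ y := by exact_mod_cast hy
  have hlog : 0 < Real.log y := Real.log_pos (by linarith)
  have hyz : y ≤ y ^ r := Nat.le_self_pow (by omega) y
  have hlz : Real.log (((y ^ r : ℕ) : ℝ) / y) = ((r : ℝ) - 1) * Real.log y := by
    rw [Real.log_div (by positivity) (by positivity)]
    push_cast
    rw [Real.log_pow]
    ring
  have hr' : (1024 : ℝ) ≤ (r : ℝ) - 1 := by
    have : (1025 : ℝ) ≤ r := by exact_mod_cast hr
    linarith
  have hG := GG_nonneg y (y ^ r)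
  have h1 : (∑ p ∈ PP y, HE y (y ^ r) p / (p : ℝ)) * (((r : ℝ) - 1) * Real.log y) ≤
      GG y (y ^ r) * 16 * (32 * Real.log y) := by
    calc (∑ p ∈ PP y, HE y (y ^ r) p / (p : ℝ)) * (((r : ℝ) - 1) * Real.log y)
        = ∑ p ∈ PP y, (HE y (y ^ r) p * Real.log (((y ^ r : ℕ) : ℝ) / y)) / (p : ℝ) := by
          rw [hlz, Finset.sum_mul]
          refine Finset.sum_congr rfl (fun p _ => ?_)
          ring
      _ ≤ ∑ p ∈ PP y, (GG y (y ^ r) * (16 * Real.log p)) / (p : ℝ) := by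
          refine Finset.sum_le_sum (fun p hp => ?_)
          exact div_le_div_of_nonneg_right (HE_le y (y ^ r) p hp hyz) (Nat.cast_nonneg _)
      _ = GG y (y ^ r) * 16 * ∑ p ∈ PP y, Real.log p / (p : ℝ) := by
          rw [Finset.mul_sum]
          refine Finset.sum_congr rfl (fun p _ => ?_)
          ring
      _ ≤ GG y (y ^ r) * 16 * (32 * Real.log y) :=
          mul_le_mul_of_nonneg_left (sum_log_div y hy) (by positivity)
  have hS0 : 0 ≤ ∑ p ∈ PP y, HE y (y ^ r) p / (p : ℝ) := by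
    apply Finset.sum_nonneg
    intro p _
    apply div_nonneg _ (Nat.cast_nonneg _)
    exact Finset.sum_nonneg (fun t ht => hh_nonneg (mem_DD.1 (mem_EE.1 ht).1).1)
  have h2 : (∑ p ∈ PP y, HE y (y ^ r) p / (p : ℝ)) * (1024 * Real.log y) ≤
      GG y (y ^ r) * 16 * (32 * Real.log y) := by
    refine le_trans ?_ h1
    apply mul_le_mul_of_nonneg_left _ hS0
    exact mul_le_mul_of_nonneg_right hr' hlog.le
  have h3 : (∑ p ∈ PP y, HE y (y ^ r) p / (p : ℝ)) * 1024 ≤ GG y (y ^ r) * 512 := by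
    have h4 : ((∑ p ∈ PP y, HE y (y ^ r) p / (p : ℝ)) * 1024) * Real.log y ≤
        (GG y (y ^ r) * 512) * Real.log y := by linarith
    exact le_of_mul_le_mul_right h4 hlog
  linarith

theorem prod_PP_le (y : ℕ) : 1 ≤ y → ∏ p ∈ PP y, (1 + 1 / ((p : ℝ) - 1)) ≤ 2 * Real.sqrt y := by
  induction y using Nat.strong_induction_on with
  | _ y ih =>
    intro hy1
    have hstep : ∀ x : ℕ, ¬ (x + 1).Prime → PP (x + 1) = PP x := by
      intro x hx
      ext q
      rw [mem_PP, mem_PP]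
      constructor
      · rintro ⟨h1, h2⟩
        refine ⟨?_, h2⟩
        rcases Nat.lt_or_ge x q with h | h
        · have : q = x + 1 := by omega
          rw [this] at h2
          exact absurd h2 hx
        · exact h
      · exact fun h => ⟨by omega, h.2⟩
    have hstep2 : ∀ x : ℕ, (x + 1).Prime → PP (x + 1) = insert (x + 1) (PP x) := by
      intro x hx
      ext q
      rw [mem_insert, mem_PP, mem_PP]
      constructor
      · rintro ⟨h1, h2⟩
        rcases Nat.lt_or_ge x q with h | h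
        · left; omega
        · right; exact ⟨h, h2⟩
      · rintro (h | h)
        · rw [h]; exact ⟨le_rfl, hx⟩
        · exact ⟨by omega, h.2⟩
    rcases Nat.lt_or_ge y 4 with hlt | hge
    · have hs2 : (1.4 : ℝ) ≤ Real.sqrt 2 := by
        apply Real.le_sqrt_of_sq_le; norm_num
      have hs3 : (1.7 : ℝ) ≤ Real.sqrt 3 := by
        apply Real.le_sqrt_of_sq_le; norm_num
      interval_cases y
      · have : PP 1 = ∅ := by decide
        rw [this, prod_empty]
        simp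
      · have : PP 2 = {2} := by decide
        rw [this, prod_singleton]
        push_cast
        linarith
      · have : PP 3 = {2, 3} := by decide
        rw [this, prod_pair (by norm_num)]
        push_cast
        linarith
    · obtain ⟨x, rfl⟩ : ∃ x, y = x + 1 := ⟨y - 1, by omega⟩
      by_cases hp : (x + 1).Prime
      · have hnx : ¬ x.Prime := by
          intro hx
          rcases hx.eq_two_or_odd with h | h
          · omega
          · rcases hp.eq_two_or_odd with h' | h' <;> omega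
        obtain ⟨w, rfl⟩ : ∃ w, x = w + 1 := ⟨x - 1, by omega⟩
        have hw1 : 1 ≤ w := by omega
        have h1 := ih w (by omega) hw1
        have hnot : (w + 1 + 1) ∉ PP (w + 1) := by
          rw [mem_PP]; omega
        rw [hstep2 (w + 1) hp, prod_insert hnot, hstep w hnx]
        have hw : (2 : ℝ) ≤ w := by
          have : 2 ≤ w := by omega
          exact_mod_cast this
        push_cast
        have h2 : (1 : ℝ) + 1 / ((w : ℝ) + 1 + 1 - 1) = ((w : ℝ) + 2) / (w + 1) := by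
          have : (w : ℝ) + 1 ≠ 0 := by linarith
          field_simp
          ring
        rw [h2]
        have h3 : ((w : ℝ) + 2) / (w + 1) * Real.sqrt w ≤ Real.sqrt ((w : ℝ) + 1 + 1) := by
          apply Real.le_sqrt_of_sq_le
          rw [mul_pow, Real.sq_sqrt (by linarith), div_pow, div_mul_eq_mul_div,
            div_le_iff₀ (by positivity)]
          nlinarith
        have h4 : (0 : ℝ) ≤ ((w : ℝ) + 2) / (w + 1) := by positivity
        calc ((w : ℝ) + 2) / (w + 1) * ∏ p ∈ PP w, (1 + 1 / ((p : ℝ) - 1))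
            ≤ ((w : ℝ) + 2) / (w + 1) * (2 * Real.sqrt w) := mul_le_mul_of_nonneg_left h1 h4
          _ = 2 * (((w : ℝ) + 2) / (w + 1) * Real.sqrt w) := by ring
          _ ≤ 2 * Real.sqrt ((w : ℝ) + 1 + 1) := mul_le_mul_of_nonneg_left h3 (by norm_num)
      · rw [hstep x hp]
        refine (ih x (by omega) (by omega)).trans ?_
        apply mul_le_mul_of_nonneg_left _ (by norm_num)
        apply Real.sqrt_le_sqrt
        push_cast
        linarith

theorem GG_le (y z : ℕ) (hy : 1 ≤ y) : GG y z ≤ 2 * Real.sqrt y := by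
  refine le_trans ?_ (prod_PP_le y hy)
  rw [Finset.prod_one_add]
  apply Finset.sum_le_sum_of_subset_of_nonneg
  · intro t ht
    exact mem_powerset.2 (mem_DD.1 ht).1
  · intro t ht _
    exact hh_nonneg (mem_powerset.1 ht)

theorem one_le_GG (y z : ℕ) (hz : 1 ≤ z) : 1 ≤ GG y z := by
  have h : (∅ : Finset ℕ) ∈ DD y z := by
    rw [mem_DD]
    exact ⟨empty_subset _, by simpa using hz⟩
  calc (1 : ℝ) = hh ∅ := by simp [hh]
    _ ≤ GG y z := by
      apply Finset.single_le_sum (f := hh) _ h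
      intro t ht
      exact hh_nonneg (mem_DD.1 ht).1

theorem card_DD_le (y z : ℕ) : (DD y z).card ≤ z := by
  have hinj : Set.InjOn (fun t : Finset ℕ => ∏ p ∈ t, p) (DD y z : Set (Finset ℕ)) := by
    intro t ht t' ht' htt
    have h1 := Nat.primeFactors_prod (s := t) (fun p hp => (mem_PP.1 ((mem_DD.1 ht).1 hp)).2)
    have h2 := Nat.primeFactors_prod (s := t') (fun p hp => (mem_PP.1 ((mem_DD.1 ht').1 hp)).2)
    simp only at htt
    rw [← h1, ← h2, htt]
  rw [← Finset.card_image_of_injOn hinj]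
  have : (DD y z).image (fun t : Finset ℕ => ∏ p ∈ t, p) ⊆ Finset.Icc 1 z := by
    intro m hm
    obtain ⟨t, ht, rfl⟩ := Finset.mem_image.1 hm
    rw [Finset.mem_Icc]
    exact ⟨Finset.prod_pos (fun p hp => (mem_PP.1 ((mem_DD.1 ht).1 hp)).2.pos), (mem_DD.1 ht).2⟩
  have := Finset.card_le_card this
  simpa using this

/-- rough elements of the interval `[a, a+k)` -/
def RR (y a k : ℕ) : Finset ℕ := (range k).filter (fun s => ∀ p ∈ PP y, ¬ p ∣ (a + s))

theorem rough_lower (y r a k : ℕ) (hy : 2 ≤ y) (hr : 1025 ≤ r) :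
    (k : ℝ) * GG y (y ^ r) / 2 - 4 * (y : ℝ) ^ 2 * ((y ^ r : ℕ) : ℝ) ^ 6 ≤
      ((RR y a k).card : ℝ) * (GG y (y ^ r)) ^ 2 := by
  classical
  set z := y ^ r with hz
  have hz1 : 1 ≤ z := Nat.one_le_pow _ _ (by omega)
  have hzr : (1 : ℝ) ≤ z := by exact_mod_cast hz1
  have hyr : (2 : ℝ) ≤ y := by exact_mod_cast hy
  let T : ℕ → ℝ := fun n => ∑ t ∈ DD y z, UU t n
  let ν : ℕ → ℝ := fun n => ∑ p ∈ PP y, (if p ∣ n then (1 : ℝ) else 0)
  have hcard : ((DD y z).card : ℝ) ≤ z := by exact_mod_cast card_DD_le y z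
  -- pointwise
  have hpt : ∀ s ∈ range k, (1 - ν (a + s)) * (T (a + s)) ^ 2 ≤
      if (∀ p ∈ PP y, ¬ p ∣ (a + s)) then (GG y z) ^ 2 else 0 := by
    intro s _
    split_ifs with h
    · have h1 : ν (a + s) = 0 := Finset.sum_eq_zero (fun p hp => if_neg (h p hp))
      have h2 : T (a + s) = GG y z := by
        refine Finset.sum_congr rfl (fun t ht => ?_)
        unfold UU hh
        refine Finset.prod_congr rfl (fun p hp => ?_)
        unfold uu
        rw [if_neg (h p ((mem_DD.1 ht).1 hp))]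
      rw [h1, h2, sub_zero, one_mul]
    · push Not at h
      obtain ⟨p, hp, hpd⟩ := h
      have h1 : 1 ≤ ν (a + s) := by
        calc (1 : ℝ) = (if p ∣ a + s then (1 : ℝ) else 0) := by rw [if_pos hpd]
          _ ≤ ν (a + s) := Finset.single_le_sum
            (f := fun p : ℕ => if p ∣ a + s then (1 : ℝ) else 0)
            (fun q _ => by split_ifs <;> norm_num) hp
      have h2 := sq_nonneg (T (a + s))
      nlinarith
  have hsum : ∑ s ∈ range k, (1 - ν (a + s)) * (T (a + s)) ^ 2 ≤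
      ((RR y a k).card : ℝ) * (GG y z) ^ 2 := by
    refine (Finset.sum_le_sum hpt).trans ?_
    rw [← Finset.sum_filter, Finset.sum_const, nsmul_eq_mul]
    rfl
  refine le_trans ?_ hsum
  have hexp : ∑ s ∈ range k, (1 - ν (a + s)) * (T (a + s)) ^ 2 =
      ∑ s ∈ range k, (T (a + s)) ^ 2 -
      ∑ p ∈ PP y, ∑ s ∈ range k, (if p ∣ (a + s) then (1 : ℝ) else 0) * (T (a + s)) ^ 2 := by
    rw [Finset.sum_comm, ← Finset.sum_sub_distrib]
    refine Finset.sum_congr rfl (fun s _ => ?_)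
    rw [← Finset.sum_mul]
    ring
  have hQ1 := quad ∅ (by simp) (DD y z) z (fun t ht =>
    ⟨fun p hp => (mem_PP.1 ((mem_DD.1 ht).1 hp)).2, by simp, (mem_DD.1 ht).2⟩) k a
  simp only [WW, Finset.prod_empty, one_mul, div_one, mul_one] at hQ1
  have hQ1' : (k : ℝ) * GG y z - 2 * (z : ℝ) ^ 6 ≤ ∑ s ∈ range k, (T (a + s)) ^ 2 := by
    have h1 := (abs_le.1 hQ1).1
    have h2 : ((DD y z).card : ℝ) ^ 2 * (2 * (z : ℝ) ^ 4) ≤ 2 * (z : ℝ) ^ 6 := by
      have h3 : ((DD y z).card : ℝ) ^ 2 ≤ (z : ℝ) ^ 2 :=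
        pow_le_pow_left₀ (Nat.cast_nonneg _) hcard 2
      have h4 : (0 : ℝ) ≤ 2 * (z : ℝ) ^ 4 := by positivity
      calc ((DD y z).card : ℝ) ^ 2 * (2 * (z : ℝ) ^ 4) ≤ (z : ℝ) ^ 2 * (2 * (z : ℝ) ^ 4) :=
            mul_le_mul_of_nonneg_right h3 h4
        _ = 2 * (z : ℝ) ^ 6 := by ring
    have h3 : (∑ t ∈ DD y z, hh t) = GG y z := rfl
    rw [h3] at h1
    show (k : ℝ) * GG y z - 2 * (z : ℝ) ^ 6 ≤ ∑ s ∈ range k, (∑ t ∈ DD y z, UU t (a + s)) ^ 2
    linarith
  have hQ2 : ∀ p ∈ PP y, ∑ s ∈ range k, (if p ∣ (a + s) then (1 : ℝ) else 0) * (T (a + s)) ^ 2 ≤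
      k * (HE y z p / p) + 2 * y * (z : ℝ) ^ 6 := by
    intro p hp
    have hpp := (mem_PP.1 hp).2
    have h := quad {p} (by simpa using hpp) (EE y z p) z (fun t ht =>
      ⟨fun q hq => (mem_PP.1 ((mem_DD.1 (mem_EE.1 ht).1).1 hq)).2,
        by simpa using (mem_EE.1 ht).2.1, (mem_DD.1 (mem_EE.1 ht).1).2⟩) k a
    simp only [WW, Finset.prod_singleton] at h
    have h1 : ∑ s ∈ range k, (if p ∣ (a + s) then (1 : ℝ) else 0) * (T (a + s)) ^ 2 =
        ∑ s ∈ range k, (if p ∣ (a + s) then (1 : ℝ) else 0) *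
          (∑ t ∈ EE y z p, UU t (a + s)) ^ 2 := by
      refine Finset.sum_congr rfl (fun s _ => ?_)
      split_ifs with hd
      · show 1 * (∑ t ∈ DD y z, UU t (a + s)) ^ 2 = _
        rw [sum_UU_eq y z p (a + s) hp hd]
      · simp
    rw [h1]
    have h2 := (abs_le.1 h).2
    have hcE : ((EE y z p).card : ℝ) ≤ z := by
      have : (EE y z p).card ≤ (DD y z).card := Finset.card_filter_le _ _
      exact_mod_cast this.trans (card_DD_le y z)
    have hpy : (p : ℝ) ≤ y := by exact_mod_cast (mem_PP.1 hp).1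
    have h3 : ((EE y z p).card : ℝ) ^ 2 * (2 * (p : ℝ) * (z : ℝ) ^ 4) ≤ 2 * y * (z : ℝ) ^ 6 := by
      have h4 : ((EE y z p).card : ℝ) ^ 2 ≤ (z : ℝ) ^ 2 :=
        pow_le_pow_left₀ (Nat.cast_nonneg _) hcE 2
      calc ((EE y z p).card : ℝ) ^ 2 * (2 * (p : ℝ) * (z : ℝ) ^ 4)
          ≤ (z : ℝ) ^ 2 * (2 * (y : ℝ) * (z : ℝ) ^ 4) := by
            apply mul_le_mul h4 _ (by positivity) (by positivity)
            apply mul_le_mul_of_nonneg_right _ (by positivity)
            linarith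
        _ = 2 * y * (z : ℝ) ^ 6 := by ring
    have h5 : (k : ℝ) / p * (∑ t ∈ EE y z p, hh t) = k * (HE y z p / p) := by
      unfold HE; ring
    rw [h5] at h2
    linarith
  have hQ2s : ∑ p ∈ PP y, ∑ s ∈ range k, (if p ∣ (a + s) then (1 : ℝ) else 0) * (T (a + s)) ^ 2 ≤
      k * (GG y z / 2) + 2 * (y : ℝ) ^ 2 * (z : ℝ) ^ 6 := by
    refine (Finset.sum_le_sum hQ2).trans ?_
    rw [Finset.sum_add_distrib, ← Finset.mul_sum, Finset.sum_const, nsmul_eq_mul]
    have h1 := sum_HE_le y r hy hr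
    rw [← hz] at h1
    have h2 : ((PP y).card : ℝ) ≤ y := by
      have : PP y ⊆ Icc 1 y := by
        intro p hp
        rw [mem_Icc]
        exact ⟨(mem_PP.1 hp).2.one_le, (mem_PP.1 hp).1⟩
      have := Finset.card_le_card this
      rw [Nat.card_Icc, Nat.add_sub_cancel] at this
      exact_mod_cast this
    have h3 : (k : ℝ) * ∑ p ∈ PP y, HE y z p / (p : ℝ) ≤ k * (GG y z / 2) :=
      mul_le_mul_of_nonneg_left h1 (Nat.cast_nonneg _)
    have h4 : ((PP y).card : ℝ) * (2 * y * (z : ℝ) ^ 6) ≤ y * (2 * y * (z : ℝ) ^ 6) :=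
      mul_le_mul_of_nonneg_right h2 (by positivity)
    have h5 : (y : ℝ) * (2 * y * (z : ℝ) ^ 6) = 2 * (y : ℝ) ^ 2 * (z : ℝ) ^ 6 := by ring
    linarith
  rw [hexp]
  have h6 : 2 * (z : ℝ) ^ 6 ≤ 2 * (y : ℝ) ^ 2 * (z : ℝ) ^ 6 := by
    have : (0 : ℝ) ≤ (z : ℝ) ^ 6 := by positivity
    have h7 : (1 : ℝ) ≤ (y : ℝ) ^ 2 := by nlinarith
    nlinarith
  linarith

end Pool.Agent.S5399Aux
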