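import Pool.Agent.S5399Aux.Corr

set_option autoImplicit false

namespace Pool.Agent.S5399Aux

open Finset

def PP (y : ℕ) : Finset ℕ := (range (y + 1)).filter Nat.Prime

theorem mem_PP {y p : ℕ} : p ∈ PP y ↔ p ≤ y ∧ p.Prime := by
  rw [PP, mem_filter, mem_range]
  constructor
  · exact fun h => ⟨by omega, h.2⟩
  · exact fun h => ⟨by omega, h.2⟩

def DD (y z : ℕ) : Finset (Finset ℕ) := (PP y).powerset.filter (fun t => ∏ p ∈ t, p ≤ z)

theorem mem_DD {y z : ℕ} {t : Finset ℕ} : t ∈ DD y z ↔ t ⊆ PP y ∧ ∏ p ∈ t, p ≤ z := by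
  rw [DD, mem_filter, mem_powerset]

def EE (y z p : ℕ) : Finset (Finset ℕ) :=
  (DD y z).filter (fun t => p ∉ t ∧ z < p * ∏ q ∈ t, q)

theorem mem_EE {y z p : ℕ} {t : Finset ℕ} :
    t ∈ EE y z p ↔ t ∈ DD y z ∧ p ∉ t ∧ z < p * ∏ q ∈ t, q := by
  rw [EE, mem_filter]

noncomputable def GG (y z : ℕ) : ℝ := ∑ t ∈ DD y z, hh t
noncomputable def HE (y z p : ℕ) : ℝ := ∑ t ∈ EE y z p, hh t

theorem hh_nonneg {y : ℕ} {t : Finset ℕ} (ht : t ⊆ PP y) : 0 ≤ hh t := by
  apply Finset.prod_nonneg
  intro p hp
  have : (2 : ℝ) ≤ p := by exact_mod_cast (mem_PP.1 (ht hp)).2.two_le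
  exact div_nonneg zero_le_one (by linarith)

theorem sum_UU_eq (y z p n : ℕ) (hp : p ∈ PP y) (hpn : p ∣ n) :
    ∑ t ∈ DD y z, UU t n = ∑ t ∈ EE y z p, UU t n := by
  classical
  have hpp := (mem_PP.1 hp).2
  have hA : ∑ t ∈ (DD y z).filter (fun t => p ∈ t), UU t n =
      - ∑ t ∈ (DD y z).filter (fun t => p ∉ t ∧ p * ∏ q ∈ t, q ≤ z), UU t n := by
    rw [← Finset.sum_neg_distrib]
    refine Finset.sum_nbij' (fun t => t.erase p) (fun t => insert p t) ?_ ?_ ?_ ?_ ?_
    · intro t ht
      rw [mem_filter, mem_DD] at ht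
      obtain ⟨⟨h1, h2⟩, h3⟩ := ht
      have h4 : p * ∏ q ∈ t.erase p, q = ∏ q ∈ t, q := Finset.mul_prod_erase t (fun q => q) h3
      rw [mem_filter, mem_DD]
      refine ⟨⟨(erase_subset _ _).trans h1, ?_⟩, notMem_erase _ _, by rw [h4]; exact h2⟩
      have : ∏ q ∈ t.erase p, q ≤ p * ∏ q ∈ t.erase p, q := Nat.le_mul_of_pos_left _ hpp.pos
      omega
    · intro t ht
      rw [mem_filter, mem_DD] at ht
      obtain ⟨⟨h1, h2⟩, h3, h4⟩ := ht
      rw [mem_filter, mem_DD]
      refine ⟨⟨insert_subset hp h1, ?_⟩, mem_insert_self _ _⟩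
      rw [prod_insert h3]
      exact h4
    · intro t ht
      exact insert_erase (mem_filter.1 ht).2
    · intro t ht
      exact erase_insert (mem_filter.1 ht).2.1
    · intro t ht
      have h3 := (mem_filter.1 ht).2
      unfold UU
      rw [← Finset.mul_prod_erase t (fun q => uu q n) h3]
      have : uu p n = -1 := by unfold uu; rw [if_pos hpn]
      rw [this]
      ring
  have hB : ∑ t ∈ (DD y z).filter (fun t => ¬ p ∈ t), UU t n =
      ∑ t ∈ (DD y z).filter (fun t => p ∉ t ∧ p * ∏ q ∈ t, q ≤ z), UU t n +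
      ∑ t ∈ EE y z p, UU t n := by
    rw [← Finset.sum_union]
    · apply Finset.sum_congr _ (fun _ _ => rfl)
      ext t
      simp only [mem_filter, mem_union, mem_EE]
      constructor
      · rintro ⟨h1, h2⟩
        rcases le_or_gt (p * ∏ q ∈ t, q) z with h | h
        · left; exact ⟨h1, h2, h⟩
        · right; exact ⟨h1, h2, h⟩
      · rintro (⟨h1, h2, _⟩ | ⟨h1, h2, _⟩) <;> exact ⟨h1, h2⟩
    · rw [Finset.disjoint_left]
      intro t h1 h2
      have h3 := (mem_filter.1 h1).2.2
      have h4 := (mem_EE.1 h2).2.2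
      omega
  rw [← Finset.sum_filter_add_sum_filter_not (DD y z) (fun t => p ∈ t), hA, hB]
  ring

/-- log sum -/
noncomputable def LS (X p : ℕ) : ℝ :=
  ∑ q ∈ (PP X).filter (fun q => X < p * q), Real.log q / ((q : ℝ) - 1)

theorem term_nonneg {q : ℕ} (hq : q.Prime) : 0 ≤ Real.log q / ((q : ℝ) - 1) := by
  have h2 : (2 : ℝ) ≤ q := by exact_mod_cast hq.two_le
  exact div_nonneg (Real.log_nonneg (by linarith)) (by linarith)

theorem LS_two (X : ℕ) : LS X 2 ≤ 4 * Real.log 4 := by
  unfold LS
  rcases Nat.eq_zero_or_pos X with h0 | hX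
  · subst h0
    have : (PP 0).filter (fun q => 0 < 2 * q) = ∅ := by
      ext q
      simp only [mem_filter, mem_PP, notMem_empty, iff_false]
      rintro ⟨⟨h1, h2⟩, _⟩
      have := h2.pos
      omega
    rw [this, sum_empty]
    have := Real.log_nonneg (show (1 : ℝ) ≤ 4 by norm_num)
    linarith
  · have hX' : (0 : ℝ) < X := by exact_mod_cast hX
    calc ∑ q ∈ (PP X).filter (fun q => X < 2 * q), Real.log q / ((q : ℝ) - 1)
        ≤ ∑ q ∈ (PP X).filter (fun q => X < 2 * q), (4 / X) * Real.log q := by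
          refine Finset.sum_le_sum (fun q hq => ?_)
          rw [mem_filter, mem_PP] at hq
          obtain ⟨⟨h1, h2⟩, h3⟩ := hq
          have h4 : (2 : ℝ) ≤ q := by exact_mod_cast h2.two_le
          have h5 : (X : ℝ) ≤ 2 * q := by exact_mod_cast h3.le
          have h6 : 0 ≤ Real.log q := Real.log_nonneg (by linarith)
          rw [div_mul_eq_mul_div, div_le_div_iff₀ (by linarith) hX']
          nlinarith
      _ = (4 / X) * ∑ q ∈ (PP X).filter (fun q => X < 2 * q), Real.log q := by
          rw [Finset.mul_sum]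
      _ ≤ (4 / X) * ∑ q ∈ PP X, Real.log q := by
          apply mul_le_mul_of_nonneg_left _ (by positivity)
          apply Finset.sum_le_sum_of_subset_of_nonneg (filter_subset _ _)
          intro q hq _
          exact Real.log_nonneg (by exact_mod_cast (mem_PP.1 hq).2.one_le)
      _ ≤ (4 / X) * (Real.log 4 * X) := by
          apply mul_le_mul_of_nonneg_left _ (by positivity)
          have h1 := Chebyshev.theta_le_log4_mul_x (x := (X : ℝ)) (Nat.cast_nonneg _)
          have h2 : ∑ q ∈ PP X, Real.log q = Chebyshev.theta X := by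
            rw [Chebyshev.theta_eq_sum_Icc, Nat.floor_natCast]
            apply Finset.sum_congr _ (fun _ _ => rfl)
            ext q
            rw [mem_PP, mem_filter, mem_Icc]
            constructor
            · exact fun h => ⟨⟨Nat.zero_le _, h.1⟩, h.2⟩
            · exact fun h => ⟨h.1.2, h.2⟩
          rw [h2]
          exact h1
      _ = 4 * Real.log 4 := by
          field_simp

theorem LS_le (X p : ℕ) (hp : 2 ≤ p) : LS X p ≤ 16 * Real.log p := by
  classical
  set J := Nat.clog 2 p with hJ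
  have h1 : LS X p ≤ ∑ j ∈ range J, LS (X / 2 ^ j) 2 := by
    unfold LS
    calc ∑ q ∈ (PP X).filter (fun q => X < p * q), Real.log q / ((q : ℝ) - 1)
        ≤ ∑ q ∈ (PP X).filter (fun q => X < p * q), ∑ j ∈ range J,
            (if q ∈ (PP (X / 2 ^ j)).filter (fun q => X / 2 ^ j < 2 * q) then
              Real.log q / ((q : ℝ) - 1) else 0) := by
          refine Finset.sum_le_sum (fun q hq => ?_)
          rw [mem_filter, mem_PP] at hq
          obtain ⟨⟨hqX, hqp⟩, hXq⟩ := hq
          have hq0 : 0 < q := hqp.pos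
          set j := Nat.log 2 (X / q) with hj
          have hXq0 : X / q ≠ 0 := by
            have := Nat.div_pos hqX hq0
            omega
          have h2j : 2 ^ j ≤ X / q := Nat.pow_log_le_self 2 hXq0
          have h2j1 : X / q < 2 ^ (j + 1) := Nat.lt_pow_succ_log_self (by norm_num) _
          have hjJ : j < J := by
            rw [hJ]
            apply (Nat.lt_clog_iff_pow_lt (by norm_num)).2
            apply lt_of_le_of_lt h2j
            rw [Nat.div_lt_iff_lt_mul hq0]
            exact hXq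
          have hmem : q ∈ (PP (X / 2 ^ j)).filter (fun q => X / 2 ^ j < 2 * q) := by
            rw [mem_filter, mem_PP]
            refine ⟨⟨?_, hqp⟩, ?_⟩
            · rw [Nat.le_div_iff_mul_le (by positivity), mul_comm]
              exact (Nat.le_div_iff_mul_le hq0).1 h2j
            · rw [Nat.div_lt_iff_lt_mul (by positivity)]
              have := (Nat.div_lt_iff_lt_mul hq0).1 h2j1
              rw [pow_succ] at this
              linarith
          rw [← Finset.add_sum_erase (range J) _ (mem_range.2 hjJ), if_pos hmem]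
          have : 0 ≤ ∑ x ∈ (range J).erase j,
              (if q ∈ (PP (X / 2 ^ x)).filter (fun q => X / 2 ^ x < 2 * q) then
              Real.log q / ((q : ℝ) - 1) else 0) := by
            apply Finset.sum_nonneg
            intro x _
            split_ifs
            · exact term_nonneg hqp
            · exact le_rfl
          linarith
      _ = ∑ j ∈ range J, ∑ q ∈ (PP X).filter (fun q => X < p * q),
            (if q ∈ (PP (X / 2 ^ j)).filter (fun q => X / 2 ^ j < 2 * q) then
              Real.log q / ((q : ℝ) - 1) else 0) := Finset.sum_comm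
      _ ≤ ∑ j ∈ range J, ∑ q ∈ (PP (X / 2 ^ j)).filter (fun q => X / 2 ^ j < 2 * q),
            Real.log q / ((q : ℝ) - 1) := by
          refine Finset.sum_le_sum (fun j _ => ?_)
          rw [← Finset.sum_filter]
          apply Finset.sum_le_sum_of_subset_of_nonneg
          · intro q hq
            exact (mem_filter.1 hq).2
          · intro q hq _
            exact term_nonneg (mem_PP.1 (mem_filter.1 hq).1).2
  have h2 : ∑ j ∈ range J, LS (X / 2 ^ j) 2 ≤ J * (4 * Real.log 4) := by
    calc ∑ j ∈ range J, LS (X / 2 ^ j) 2 ≤ ∑ j ∈ range J, (4 * Real.log 4) :=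
          Finset.sum_le_sum (fun j _ => LS_two _)
      _ = _ := by rw [Finset.sum_const, card_range, nsmul_eq_mul]
  have hlog2 : 0 < Real.log 2 := Real.log_pos (by norm_num)
  have hlog4 : Real.log 4 = 2 * Real.log 2 := by
    rw [show (4 : ℝ) = 2 ^ 2 by norm_num, Real.log_pow]; norm_num
  have hp' : (2 : ℝ) ≤ p := by exact_mod_cast hp
  have hlogp : Real.log 2 ≤ Real.log p := Real.log_le_log (by norm_num) hp'
  have h3 : (J : ℝ) * Real.log 2 ≤ 2 * Real.log p := by
    have hJ1 : 1 ≤ J := Nat.clog_pos (by norm_num) hp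
    have h4 : 2 ^ (J - 1) < p := by
      have := Nat.pow_pred_clog_lt_self (b := 2) (by norm_num) (x := p) (by omega)
      rw [Nat.pred_eq_sub_one] at this
      exact this
    have h5 : (2 : ℝ) ^ (J - 1) < p := by exact_mod_cast h4
    have h6 := Real.log_lt_log (by positivity) h5
    rw [Real.log_pow] at h6
    have h7 : ((J - 1 : ℕ) : ℝ) = J - 1 := by
      rw [Nat.cast_sub hJ1, Nat.cast_one]
    rw [h7] at h6
    linarith
  rw [hlog4] at h2
  linarith

end Pool.Agent.S5399Aux
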